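import Pool.Agent.Lib.MP_95f78b_al.Fin
import Pool.Agent.Lib.MP_8f66f0_al_TQ.VVU

/-!
# MP_95f78b_al: type FF for PD_3-groups which act on CAT(0) cube complexes

Every group `G` of type FP in the class `VC` (`Pool.Agent.Lib.MP_8f66f0_al_TQ.VVD`) is of type FF:
the trivial module `ℤ` has a finite resolution by finitely generated free `ℤ[G]`-modules. In
particular every orientable `PD_3`-group in the class is of type FF.

The class `YC` is the least class of groups which contains all finite groups and all torsion free
subgroups of `GL_2(R)`, for all commutative rings `R` of positive characteristic and all rings `R`
which can be embedded in a purely transcendental extension of `ℚ`, and is closed under isomorphism,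
subgroups, directed unions, extensions, actions on trees and on CAT(0) cube complexes of finite
dimension (given by their `1`-skeleton, a median graph which contains no cube of dimension `N + 1`)
with all vertex stabilizers in the class (no condition of local finiteness), and representations in
`GL_2(R)` for arbitrary commutative rings `R` (it is enough that all subgroups with integral traces
and determinants are in the class). The class `VC` is the least class which contains all torsion
free groups in `YC` and all torsion free subgroups of `GL_3(R)`, `R` of positive characteristic, and
is closed under isomorphism, subgroups, directed unions, extensions, actions without inversions on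
trees with all vertex stabilizers in the class, actions on CAT(0) cube complexes of finite
dimension with the stabilizers of all cubes in the class, actions on 2-complexes which satisfy the
metric conditions `Met` with all vertex stabilizers in the class, representations in `GL_2(R)` and
`GL_3(R)` (it is enough that all subgroups with integral characteristic polynomials are in the
class), and elementary amenable quotients.

The proof: `K_1(L[G])` is generated by the units of `L` and the elements of `G` for all Euclidean
domains `L` (`vv_all`), so all finitely generated projective modules over `ℤ[G]` are stably free,
and the projective modules in a finite resolution can be replaced by free ones.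
-/

set_option autoImplicit false

open CategoryTheory

namespace Pool.Agent.Lib.MP_95f78b_al_Old.CubeComplexesFF

/-- Every group of type FP in the class `VC` is of type FF. -/
theorem result (G : Type) [Group G] (hG : Pool.Agent.WhVan.VC G)
    (hFP : ∃ P : CategoryTheory.ProjectiveResolution (Rep.trivial ℤ G ℤ),
      (∃ N : ℕ, ∀ i : ℕ, N < i → CategoryTheory.Limits.IsZero (P.complex.X i)) ∧
      ∀ i : ℕ, ∃ n : ℕ, ∃ f : Quiver.Hom (P.complex.X i) (Rep.free ℤ G (Fin n)),
        ∃ g : Quiver.Hom (Rep.free ℤ G (Fin n)) (P.complex.X i),
          CategoryTheory.CategoryStruct.comp f g =
            CategoryTheory.CategoryStruct.id (P.complex.X i)) :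
    ∃ P : CategoryTheory.ProjectiveResolution (Rep.trivial ℤ G ℤ),
      (∃ N : ℕ, ∀ i : ℕ, N < i → CategoryTheory.Limits.IsZero (P.complex.X i)) ∧
      ∀ i : ℕ, ∃ n : ℕ,
        Nonempty (CategoryTheory.Iso (P.complex.X i) (Rep.free ℤ G (Fin n))) :=
  Pool.Agent.TypeFF.ff_of_cc (Pool.Agent.WhVan.CC.base fun L _ _ hL =>
    Pool.Agent.WhVan.vv_all hG L hL) hFP

end Pool.Agent.Lib.MP_95f78b_al_Old.CubeComplexesFF
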